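import Pool.Agent.L0h88.TK.Fin

/-! # MP_cc494f_an, Q1: for every generalized Takagi function in the class `𝒯_v`, almost every
level set is finite. -/

open MeasureTheory Set

namespace Pool.Agent.Results.MP_cc494f_an.TakagiLevelSets

/-- `φ(x) = dist(x, ℤ) = |x - round x|`. -/
noncomputable def phi (x : ℝ) : ℝ := |x - round x|

/-- Admissible sign sequences: `ω n : [0,1] → {-1,1}` is constant on each dyadic interval
`[j 2^{-n}, (j+1) 2^{-n})`, `j = 0, 1, …, 2^n - 1`. -/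
def IsSigns (ω : ℕ → ℝ → ℝ) : Prop :=
  (∀ n : ℕ, ∀ x ∈ Icc (0:ℝ) 1, ω n x = 1 ∨ ω n x = -1) ∧
  ∀ n j : ℕ, j < 2 ^ n →
    ∀ x ∈ Ico ((j:ℝ) / 2 ^ n) (((j:ℝ) + 1) / 2 ^ n),
    ∀ x' ∈ Ico ((j:ℝ) / 2 ^ n) (((j:ℝ) + 1) / 2 ^ n), ω n x = ω n x'

/-- The class `𝒯_v` of all functions `f : [0,1] → ℝ` of the form
`f(x) = ∑_{n ≥ 0} 2^{-n} ω_n(x) φ(2^n x)`. -/
def IsTv (f : Icc (0:ℝ) 1 → ℝ) : Prop :=
  ∃ ω : ℕ → ℝ → ℝ, IsSigns ω ∧
    ∀ x : Icc (0:ℝ) 1, f x = ∑' n : ℕ, ((2:ℝ) ^ n)⁻¹ * ω n x * phi ((2:ℝ) ^ n * x)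

open Classical in
/-- integer sign array attached to `ω` -/
noncomputable def arr (ω : ℕ → ℝ → ℝ) : ℕ → ℤ → ℤ :=
  fun n j => if ω n ((j:ℝ) / 2 ^ n) = 1 then 1 else -1

theorem sgn_arr (ω : ℕ → ℝ → ℝ) : R109.GT.Sgn (arr ω) := by
  intro n j
  unfold arr
  split_ifs
  · exact Or.inl rfl
  · exact Or.inr rfl

theorem eq_tak {ω : ℕ → ℝ → ℝ} (hω : IsSigns ω) (x : ℝ) (hx : x ∈ Icc (0:ℝ) 1) :
    ∑' n : ℕ, ((2:ℝ) ^ n)⁻¹ * ω n x * phi ((2:ℝ) ^ n * x) = R109.GT.tak (arr ω) x := by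
  unfold R109.GT.tak
  apply tsum_congr
  intro n
  have h2n : (0:ℝ) < 2 ^ n := by positivity
  rcases eq_or_lt_of_le hx.2 with h1 | h1
  · -- x = 1
    have hz : (2:ℝ) ^ n * x = (((2:ℤ) ^ n : ℤ) : ℝ) := by rw [h1]; push_cast; ring
    have hp : phi ((2:ℝ) ^ n * x) = 0 := by
      rw [hz, phi, round_intCast, sub_self, abs_zero]
    have hp' : R109.GT.phi ((2:ℝ) ^ n * x) = 0 := hp
    rw [hp, hp']
    simp
  · set j := ⌊(2:ℝ) ^ n * x⌋ with hj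
    have hj0 : 0 ≤ j := Int.floor_nonneg.mpr (mul_nonneg h2n.le hx.1)
    have hle : (j:ℝ) ≤ 2 ^ n * x := Int.floor_le _
    have hlt : (2:ℝ) ^ n * x < j + 1 := Int.lt_floor_add_one _
    obtain ⟨k, hk⟩ := Int.eq_ofNat_of_zero_le hj0
    have hkr : (j:ℝ) = (k:ℝ) := by rw [hk]; simp
    have hk2 : k < 2 ^ n := by
      have : (k:ℝ) < 2 ^ n := by
        rw [← hkr]
        calc (j:ℝ) ≤ 2 ^ n * x := hle
          _ < 2 ^ n * 1 := by gcongr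
          _ = 2 ^ n := mul_one _
      exact_mod_cast this
    have hxI : x ∈ Ico ((k:ℝ) / 2 ^ n) (((k:ℝ) + 1) / 2 ^ n) := by
      rw [mem_Ico, div_le_iff₀ h2n, lt_div_iff₀ h2n, ← hkr]
      constructor <;> linarith
    have hkI : (k:ℝ) / 2 ^ n ∈ Ico ((k:ℝ) / 2 ^ n) (((k:ℝ) + 1) / 2 ^ n) := by
      refine ⟨le_rfl, ?_⟩
      gcongr
      linarith
    have hc := hω.2 n k hk2 x hxI _ hkI
    have hval : ω n x = ((arr ω n j : ℤ) : ℝ) := by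
      unfold arr
      rw [hkr, ← hc]
      rcases hω.1 n x hx with h | h
      · rw [if_pos h, h]; simp
      · rw [if_neg (by rw [h]; norm_num), h]; simp
    rw [hval]
    unfold phi R109.GT.phi
    field_simp

/-- For every `f ∈ 𝒯_v`, the level set `{x ∈ [0,1] : f(x) = y}` is finite for
Lebesgue-almost every `y`. -/
theorem result (f : Icc (0:ℝ) 1 → ℝ) (hf : IsTv f) :
    ∀ᵐ y ∂(volume : Measure ℝ), {x : Icc (0:ℝ) 1 | f x = y}.Finite := by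
  obtain ⟨ω, hω, hfx⟩ := hf
  filter_upwards [Pool.Agent.L0h88.TK.ae_fin (sgn_arr ω)] with y hy
  refine Set.Finite.of_finite_image (f := Subtype.val) (hy.subset ?_) Subtype.val_injective.injOn
  rintro _ ⟨x, hx, rfl⟩
  have hx' : f x = y := hx
  refine ⟨x.2, ?_⟩
  rw [← eq_tak hω x x.2, ← hfx x, hx']

end Pool.Agent.Results.MP_cc494f_an.TakagiLevelSets
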